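import Pool.Agent.H10.CM.FStmts

set_option autoImplicit false

open Polynomial

namespace Pool.CM

namespace VALU

variable {X : Idx} {E : Type} [Field E] {A : PF X E}

theorem p_ne (hA : A.Ax) (i : X.I) : ((X.p i : ℕ) : E) ≠ 0 := by
  intro h
  apply hA.p_inv i
  rw [h, inv_zero]
  exact (A.O i).zero_mem

theorem p_mem (i : X.I) : ((X.p i : ℕ) : E) ∈ A.O i := natCast_mem _ _

theorem one (hA : A.Ax) (i : X.I) (x : E) (hx : x ∈ A.O i) (hu : ¬ A.Un i x) : A.Dv i 1 x := by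
  by_cases h0 : x = 0
  · exact ⟨0, (A.O i).zero_mem, by rw [h0, mul_zero]⟩
  obtain ⟨k, hk⟩ := hA.scale i x h0
  have hp := p_ne hA i
  rcases le_or_gt 0 k with hk0 | hk0
  · exfalso
    apply hu
    refine ⟨h0, hx, ?_⟩
    obtain ⟨n, rfl⟩ := Int.eq_ofNat_of_zero_le hk0
    have h1 : x⁻¹ = ((X.p i : ℕ) : E) ^ n * (x * ((X.p i : ℕ) : E) ^ (n : ℤ))⁻¹ := by
      rw [zpow_natCast]
      field_simp
    rw [h1]
    exact (A.O i).mul_mem ((A.O i).pow_mem (p_mem i) n) hk.2.2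
  · obtain ⟨m, hm⟩ : ∃ m : ℕ, k = -((m : ℤ) + 1) := ⟨(-k - 1).toNat, by omega⟩
    refine ⟨x * ((X.p i : ℕ) : E) ^ k * ((X.p i : ℕ) : E) ^ m,
      (A.O i).mul_mem hk.2.1 ((A.O i).pow_mem (p_mem i) m), ?_⟩
    rw [hm, zpow_neg, zpow_add₀ hp, zpow_natCast, zpow_one]
    field_simp

theorem two (i : X.I) (x y : E) (hx : A.Dv i 1 x) (hy : A.Dv i 1 y) : A.Dv i 1 (x + y) := by
  obtain ⟨a, ha, rfl⟩ := hx
  obtain ⟨b, hb, rfl⟩ := hy
  exact ⟨a + b, (A.O i).add_mem ha hb, by ring⟩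

theorem three (hA : A.Ax) (i : X.I) (x : E) (hx : A.Dv i 1 x) : ¬ A.Un i x := by
  rintro ⟨h0, -, h2⟩
  obtain ⟨a, ha, e⟩ := hx
  apply hA.p_inv i
  have hp := p_ne hA i
  have ha0 : a ≠ 0 := by
    rintro rfl
    exact h0 (by rw [e, mul_zero])
  have h3 : ((X.p i : ℕ) : E)⁻¹ = a * x⁻¹ := by
    rw [e, pow_one]
    field_simp
  rw [h3]
  exact (A.O i).mul_mem ha h2

theorem four (hA : A.Ax) (i : X.I) (x : E) : x ∈ A.O i ∨ x⁻¹ ∈ A.O i := by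
  by_cases h0 : x = 0
  · left
    rw [h0]
    exact (A.O i).zero_mem
  obtain ⟨k, hk⟩ := hA.scale i x h0
  have hp := p_ne hA i
  rcases le_total 0 k with hk0 | hk0
  · right
    obtain ⟨n, rfl⟩ := Int.eq_ofNat_of_zero_le hk0
    have h1 : x⁻¹ = ((X.p i : ℕ) : E) ^ n * (x * ((X.p i : ℕ) : E) ^ (n : ℤ))⁻¹ := by
      rw [zpow_natCast]
      field_simp
    rw [h1]
    exact (A.O i).mul_mem ((A.O i).pow_mem (p_mem i) n) hk.2.2
  · left
    obtain ⟨m, hm⟩ : ∃ m : ℕ, k = -(m : ℤ) := ⟨(-k).toNat, by omega⟩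
    have h1 : x = (x * ((X.p i : ℕ) : E) ^ k) * ((X.p i : ℕ) : E) ^ m := by
      rw [hm, zpow_neg, zpow_natCast]
      field_simp
    rw [h1]
    exact (A.O i).mul_mem hk.2.1 ((A.O i).pow_mem (p_mem i) m)

theorem dv_mem (i : X.I) (x : E) (hx : A.Dv i 1 x) : x ∈ A.O i := by
  obtain ⟨a, ha, rfl⟩ := hx
  exact (A.O i).mul_mem ((A.O i).pow_mem (p_mem i) 1) ha

theorem five (hA : A.Ax) (i : X.I) (x y : E) (hx : A.Un i x) (hy : A.Dv i 1 y) :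
    A.Un i (x + y) := by
  by_contra h
  have h1 := one hA i (x + y) ((A.O i).add_mem hx.2.1 (dv_mem i y hy)) h
  obtain ⟨a, ha, e⟩ := hy
  have h2 : A.Dv i 1 (-y) := ⟨-a, (A.O i).neg_mem ha, by rw [e]; ring⟩
  have h3 := two i _ _ h1 h2
  rw [add_neg_cancel_right] at h3
  exact three hA i x h3 hx

end VALU

theorem valu : VALUStmt := by
  intro X E _ A hA i
  refine ⟨VALU.one hA i, fun x y hx _ hy => VALU.two i x y hx hy, VALU.three hA i, VALU.four hA i,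
    VALU.five hA i, fun x y hx hy => ⟨mul_ne_zero hx.1 hy.1, (A.O i).mul_mem hx.2.1 hy.2.1, ?_⟩,
    fun x hx => ⟨?_, hA.phi_O i x hx.2.1, ?_⟩⟩
  · rw [mul_inv]
    exact (A.O i).mul_mem hx.2.2 hy.2.2
  · rw [_root_.map_ne_zero]
    exact hx.1
  · rw [← map_inv₀]
    exact hA.phi_O i _ hx.2.2

end Pool.CM
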